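import Pool.Agent.helper29.PQ.Spec
import Pool.Agent.helper85.MT.MLS

namespace Pool.Agent.helper73.PQ

open Finset Pool.Agent.helper74.TG Pool.Agent.helper29.PQ Pool.Agent.helper85.BVP
  Pool.Agent.helper85.MT

lemma ee_ex (x : ℝ) : ee x = ex x := by
  rw [ee, ex]
  congr 1
  push_cast
  ring

theorem C2 : C2_stmt := by
  intro Q U N₁ c hQ hU hQU
  have hQr : (0 : ℝ) < Q := by exact_mod_cast hQ
  have hUr : (0 : ℝ) < U := by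
    have : 0 < U := by omega
    exact_mod_cast this
  have hmem : ∀ j ∈ Fa Q, (j.1, j.2) ∈ farey Q := by
    rintro ⟨q, a⟩ hj
    rw [Fa, mem_sigma, mem_Ioc, mem_filter, mem_range] at hj
    rw [farey, mem_filter, mem_product, mem_Icc, mem_range]
    obtain ⟨⟨h1, h2⟩, h3, h4⟩ := hj
    simp only at h1 h2 h3 h4 ⊢
    exact ⟨⟨⟨h1, h2⟩, by omega⟩, h3, h4⟩
  have hsp : ∀ j ∈ Fa Q, ∀ k ∈ Fa Q, j ≠ k →
      1 / (Q : ℝ) ^ 2 ≤ |sd ((j.2 : ℝ) / j.1 - (k.2 : ℝ) / k.1)| := by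
    rintro ⟨q, a⟩ hj ⟨q', a'⟩ hk hne
    refine farey_spacing Q (q, a) (q', a') (hmem _ hj) (hmem _ hk) fun h => hne ?_
    rw [Prod.mk.injEq] at h
    obtain ⟨rfl, rfl⟩ := h
    rfl
  have h := dual (Fa Q) (fun r => (r.2 : ℝ) / r.1) (1 / (Q : ℝ) ^ 2) (by positivity) hsp c 0 U
  have h1 : ∑ N ∈ Ioc N₁ U, ‖∑ r ∈ Fa Q, c r * ee ((N : ℝ) * ((r.2 : ℝ) / r.1))‖ ^ 2
      ≤ ∑ n ∈ range (2 * U), ‖∑ j ∈ Fa Q, c j * ex ((((0 : ℤ) + n : ℤ) : ℝ)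
        * ((j.2 : ℝ) / j.1))‖ ^ 2 := by
    have hsub : Ioc N₁ U ⊆ range (2 * U) := by
      intro n hn
      rw [mem_Ioc] at hn
      rw [mem_range]
      omega
    refine le_trans ?_ (sum_le_sum_of_subset_of_nonneg hsub (fun _ _ _ => by positivity))
    refine le_of_eq (sum_congr rfl fun n _ => ?_)
    have e : (((0 : ℤ) + n : ℤ) : ℝ) = (n : ℝ) := by push_cast; ring
    rw [e]
    simp only [ee_ex]
  have h2 : (1 : ℝ) / (1 / (Q : ℝ) ^ 2) ^ 2 = (Q : ℝ) ^ 4 := by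
    field_simp
  have h3 : (Q : ℝ) ^ 4 ≤ (U : ℝ) ^ 2 := by exact_mod_cast hQU
  rw [h2] at h
  have h4 : 0 ≤ ∑ j ∈ Fa Q, ‖c j‖ ^ 2 := sum_nonneg fun _ _ => by positivity
  have h5 : (U : ℝ) * ∑ N ∈ Ioc N₁ U,
      ‖∑ r ∈ Fa Q, c r * ee ((N : ℝ) * ((r.2 : ℝ) / r.1))‖ ^ 2
      ≤ (U : ℝ) * (5 * U * ∑ j ∈ Fa Q, ‖c j‖ ^ 2) := by
    refine (mul_le_mul_of_nonneg_left h1 hUr.le).trans (h.trans ?_)
    have h6 : (4 * (U : ℝ) ^ 2 + (Q : ℝ) ^ 4) * ∑ j ∈ Fa Q, ‖c j‖ ^ 2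
        ≤ (5 * (U : ℝ) ^ 2) * ∑ j ∈ Fa Q, ‖c j‖ ^ 2 :=
      mul_le_mul_of_nonneg_right (by linarith) h4
    refine h6.trans (le_of_eq ?_)
    ring
  exact le_of_mul_le_mul_left h5 hUr

end Pool.Agent.helper73.PQ
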